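import Pool.Agent.N12.KM.DD
import Pool.Agent.N676.RV.Pro
import Pool.Agent.N676.RV.Cls

/-!
# MP_7da6af_nt: no torsion anomalous subvarieties, coefficient vectors in families of residues

Let `E_i : y² = x³ + A_i x + B_i` be arbitrary elliptic curves over the complex numbers and let
`𝔖 = E_1^(q_1) × … × E_n^(q_n) × G_m^k` (`Amb`), of dimension `N = q_1 + … + q_n + k`, with the
coordinates `x(P_{i,l})` and `u_w`. The starting result `RandomMaps` of MP_dd1803_nt (whose definitions are used) considers the rational maps
`F_c : 𝔖 ⇢ ℂ^m` whose `m` numerators and `m` denominators are polynomials of multidegree `D` in the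
coordinates with the integral coefficient vector `c ∈ ℤ^r`, and shows for every irreducible `V ⊆ ℂ^m`
that for a positive proportion of all the vectors `c` in a box the pull-back `pullback c V` has no
atypical intersections with special subvarieties.

Here the coefficient vectors are the members `c = c' + y_i`, `i ∈ s`, of families of vectors of residues: `c'` is any
integral vector, and the `y_i` are the least residues of vectors of residues modulo a number `M` whose Fourier
coefficients at the nonzero frequencies are at most `|s| / (Z (42 + 3 log M) ^ r)`, where `Z ≤ M` (`Small`). There are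
very thin families of this kind (`Examples`): all coefficients in cosets of subgroups of order `≥ 5 p^(3/8+δ)` of the
multiplicative group modulo a prime `M = p`, all coefficients in the set of the quotients `j / r` modulo `p`, `r ≤ R` prime,
`0 ≤ j < R²`, `R` a power of `log p`, or the vectors `(f_i(x))_i` modulo `p` of the values of polynomials of different
degrees `≥ d`, `x ≤ p^(1/d+δ)`, with only one parameter `x`.

**Theorem.** For all elliptic curves `E_1, …, E_n` over the complex numbers, all irreducible `V ⊆ ℂ^m` and all residue classes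
`c₀` modulo `Q₀` there are `δ > 0` and `Z₀` such that for ALL families with `Z ≥ Z₀` and ALL translation vectors `c'`, for
at least `δ |s|` of the `i ∈ s` the vector `c = c' + y_i` is congruent to `c₀` modulo `Q₀` and the pull-back of `V` under
`F_c` has no atypical intersections with special subvarieties: for every `ρ` every irreducible closed subset of its
intersection with the union of the algebraic subgroups of codimension `ρ` has dimension at most
`N - (m - dim V) - ρ`.

Proof: the residue class of coefficient vectors of the starting library (`TH971.SP`, in the form of helper943), and the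
uniform distribution of the families modulo small integers (helper384).
-/

set_option autoImplicit false

namespace Pool.Agent.Results.MP_7da6af_nt.ResidueVectors

open MvPolynomial Pool.Agent.W282.ZP Pool.Agent.N676.RV
open Pool.Agent.Results.MP_dd1803_nt.RandomMaps

/-- the coefficients of the rational maps to `ℂ^m` of multidegree `D` -/
abbrev Idx {n : ℕ} {q : Fin n → ℕ} {k : ℕ} (m : ℕ) (D : Ind q k → ℕ) : Type :=
  Fin m × Fin 2 × ((i : Ind q k) → Fin (D i + 1))

theorem result :
    (∀ {n : ℕ} (q : Fin n → ℕ) (k m : ℕ) (D : Ind q k → ℕ), (∀ i, 0 < D i) →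
      (∀ j : (i : Fin n) × Fin (q i), q j.1 ≤ D (Sum.inl j)) →
      ∀ (A B : Fin n → ℂ) (V : Set (Fin m → ℂ)), (idealOf V).IsPrime →
      ∀ (Q₀ : ℕ) (c₀ : Coeffs m D), 0 < Q₀ → ∃ δ : ℝ, 0 < δ ∧ ∃ Z₀ : ℕ,
        ∀ (τ : Type) (M : ℕ) [NeZero M] (s : Finset τ) (y : τ → Idx m D → ZMod M) (Z : ℝ),
          Z₀ ≤ Z → Small M Z s y → ∀ c' : Idx m D → ℤ,
            δ * s.card ≤ ({i : τ | i ∈ s ∧ (∀ j, (Q₀ : ℤ) ∣ vec y c' i j - c₀ j) ∧
              NoAtypical (A := A) (B := B) (pullback (vec y c' i : Coeffs m D) V) m (zdim V)}.ncard : ℝ)) ∧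
    Examples := by
  refine ⟨?_, examples⟩
  intro n q k m D hD hDq A B V hV Q₀ c₀ hQ₀
  obtain ⟨Q, G, hQ, hgood⟩ :=
    Pool.Agent.N12.KM.exists_good_class A B q k m V hV D hD hDq Q₀ hQ₀ c₀
  set t : ℝ := (Q : ℝ) ^ Fintype.card (Idx m D) with ht
  have hQR : (0 : ℝ) < Q := Nat.cast_pos.2 hQ
  have ht0 : 0 < t := by positivity
  obtain ⟨Z₀, h0⟩ := cls_fam (ι := Idx m D) Q hQ G (t⁻¹ / 2) (by positivity)
  refine ⟨t⁻¹ / 2, by positivity, Z₀, fun τ M _ s y Z hZ hsm c' => ?_⟩
  have h1 := h0 τ M s y Z hZ hsm c'
  have h2 : (t⁻¹ - t⁻¹ / 2) * (s.card : ℝ) = t⁻¹ / 2 * s.card := by ring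
  rw [h2] at h1
  exact h1.trans (ncard_mono fun i _ hi => hgood (vec y c' i) hi)

end Pool.Agent.Results.MP_7da6af_nt.ResidueVectors
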